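import Pool.Agent.Helper24.SQ.Crit

/-!
# Pfaffian representations and multiples: number of nondegenerate critical points

`F ^ 2 = det A`, `A` a skew-symmetric matrix of affine linear functions (so `Pf A = ± F`).
For constant vectors `w₁ w₂`, `det (A + w₁ w₂ᵀ) = F * (F + w₂ · Q w₁)` with `adj A = F • Q`; for generic
`w₁, w₂` the second factor does not vanish at the critical points of `F`.
-/

set_option autoImplicit false

namespace Pool.Agent.Helper67.Pf

open MvPolynomial Matrix Pool.Agent.Helper24.SQ

section Mult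

variable {ι : Type} [Fintype ι]

/-- Critical points survive multiplication by a function which does not vanish there. -/
theorem CritPt.mul {F H : MvPolynomial (Option ι) ℂ} {z : Option ι → ℂ} (hF : CritPt F z)
    (hH : eval z H ≠ 0) : CritPt (F * H) z := by
  obtain ⟨h0, h1, h2, h3⟩ := hF
  refine ⟨?_, ?_, ?_, ?_⟩
  · rw [map_mul, h0, zero_mul]
  · intro v
    rw [Derivation.leibniz, smul_eq_mul, smul_eq_mul, map_add, map_mul, map_mul, h0, h1]
    ring
  · rw [Derivation.leibniz, smul_eq_mul, smul_eq_mul, map_add, map_mul, map_mul, h0, zero_mul, zero_add]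
    exact mul_ne_zero hH h2
  · intro w hw
    apply h3
    intro v
    have h4 := hw v
    have h5 : ∀ v' : ι, eval z (pderiv (some v') (pderiv (some v) (F * H))) =
        eval z H * eval z (pderiv (some v') (pderiv (some v) F)) := by
      intro v'
      simp only [Derivation.leibniz, smul_eq_mul, map_add, map_mul, h0, h1]
      ring
    simp only [h5, mul_assoc, ← Finset.mul_sum] at h4
    exact (mul_eq_zero.1 h4).resolve_left hH

end Mult

section Field

variable {K : Type*} [Field K] {μ : Type*} [Fintype μ] [DecidableEq μ]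

/-- The elementary skew-symmetric matrix. -/
def esk {R : Type*} [Ring R] (i j : μ) (s : R) : Matrix μ μ R :=
  of fun a b => (if a = j then (if b = i then s else 0) else 0) -
    (if a = i then (if b = j then s else 0) else 0)

theorem inv_skew (A : Matrix μ μ K) (hA : Aᵀ = -A) (hu : IsUnit A.det) (i j : μ) :
    A⁻¹ i j = -A⁻¹ j i := by
  have h : (A⁻¹)ᵀ = -A⁻¹ := by
    rw [transpose_nonsing_inv, hA]
    exact Matrix.inv_eq_right_inv (by rw [neg_mul_neg, mul_nonsing_inv _ hu])
  have := congrFun (congrFun h j) i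
  simpa only [transpose_apply, Matrix.neg_apply] using this

theorem inv_diag (h2 : (2 : K) ≠ 0) (A : Matrix μ μ K) (hA : Aᵀ = -A) (hu : IsUnit A.det)
    (i : μ) : A⁻¹ i i = 0 := by
  have h := inv_skew A hA hu i i
  have h3 : (2 : K) * A⁻¹ i i = 0 := by linear_combination h
  exact (mul_eq_zero.1 h3).resolve_left h2

theorem det_add_esk (h2 : (2 : K) ≠ 0) (A : Matrix μ μ K) (hA : Aᵀ = -A) (hu : IsUnit A.det)
    (i j : μ) (s : K) : (A + esk i j s).det = A.det * (1 + s * A⁻¹ i j) ^ 2 := by
  have hd := inv_diag h2 A hA hu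
  have hs := inv_skew A hA hu
  set U : Matrix μ (Fin 2) K := of fun a k => ![if a = j then s else 0, if a = i then -s else 0] k
    with hU
  set V : Matrix (Fin 2) μ K := of fun k b => ![if b = i then 1 else 0, if b = j then 1 else 0] k
    with hV
  have e : A + esk i j s = A + U * V := by
    congr 1
    ext a b
    rw [Matrix.mul_apply, Fin.sum_univ_two]
    simp only [esk, of_apply, hU, hV, Matrix.cons_val_zero, Matrix.cons_val_one]
    split_ifs <;> simp
  rw [e, det_add_mul U V hu]
  congr 1
  generalize A⁻¹ = B at hd hs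
  have m00 : (V * B * U) 0 0 = s * B i j := by
    simp [Matrix.mul_apply, hU, hV, mul_comm]
  have m01 : (V * B * U) 0 1 = 0 := by
    simp [Matrix.mul_apply, hU, hV, hd]
  have m10 : (V * B * U) 1 0 = 0 := by
    simp [Matrix.mul_apply, hU, hV, hd]
  have m11 : (V * B * U) 1 1 = s * B i j := by
    rw [hs i j]
    simp [Matrix.mul_apply, hU, hV, mul_comm]
  rw [det_fin_two]
  simp only [Matrix.add_apply, m00, m01, m10, m11, Matrix.one_apply]
  simp
  ring

end Field

section Skew

variable {R : Type*} [CommRing R] [IsDomain R] [IsIntegrallyClosed R] {μ : Type*} [Fintype μ]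
  [DecidableEq μ]

/-- If the determinant of a skew-symmetric matrix is `G ^ 2` then its adjugate is divisible by `G`. -/
theorem exists_padj (h2 : IsUnit (2 : R)) (A : Matrix μ μ R) (hA : Aᵀ = -A) (G : R)
    (hG : A.det = G ^ 2) (hG0 : G ≠ 0) :
    ∃ Q : Matrix μ μ R, A * Q = G • (1 : Matrix μ μ R) ∧
      ∀ w₁ w₂ : μ → R, (A + vecMulVec w₁ w₂).det = G * (G + w₂ ⬝ᵥ (Q *ᵥ w₁)) := by
  let K := FractionRing R
  let f : R →+* K := algebraMap R K
  have hinj : Function.Injective f := IsFractionRing.injective R K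
  obtain ⟨t, ht⟩ := h2.exists_right_inv
  have h2' : (2 : K) ≠ 0 := by
    intro h
    have h3 : f (2 * t) = 0 := by rw [map_mul, map_ofNat, h, zero_mul]
    rw [ht, map_one] at h3
    exact one_ne_zero h3
  obtain ⟨A', hA'⟩ : ∃ A' : Matrix μ μ K, A' = A.map f := ⟨_, rfl⟩
  have hdet : A'.det = f G ^ 2 := by
    have : A'.det = f A.det := by rw [RingHom.map_det, hA']; rfl
    rw [this, hG, map_pow]
  have hg : f G ≠ 0 := fun h => hG0 (hinj (by rw [h, map_zero]))
  have hu : IsUnit A'.det := by
    rw [hdet]; exact (pow_ne_zero 2 hg).isUnit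
  have hT : A'ᵀ = -A' := by
    rw [hA', ← Matrix.transpose_map, hA]
    ext i j
    simp
  have hdiag := inv_diag h2' A' hT hu
  have hesk := det_add_esk h2' A' hT hu
  obtain ⟨B, hB⟩ : ∃ B : Matrix μ μ K, B = A'⁻¹ := ⟨_, rfl⟩
  have hAB : A' * B = 1 := by rw [hB]; exact mul_nonsing_inv _ hu
  rw [← hB] at hdiag hesk
  -- the squares of the entries of `G B`
  have hsq : ∀ i j, ∃ r : R, f r = (f G * B i j) ^ 2 := by
    intro i j
    have key : ∀ s : R, f (A + esk i j s).det = f G ^ 2 * (1 + f s * B i j) ^ 2 := by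
      intro s
      rw [← hdet, ← hesk, RingHom.map_det]
      congr 1
      rw [hA']
      ext a b
      simp only [RingHom.mapMatrix_apply, Matrix.map_apply, Matrix.add_apply, esk, of_apply, map_add,
        map_sub]
      split_ifs <;> simp
    have k1 := key 1
    have k2 := key (-1)
    refine ⟨t * ((A + esk i j 1).det + (A + esk i j (-1)).det - 2 * G ^ 2), ?_⟩
    have h4 : 2 * f t = 1 := by
      have : f (2 * t) = 1 := by rw [ht, map_one]
      rwa [map_mul, map_ofNat] at this
    rw [map_mul, map_sub, map_add, k1, k2, map_mul, map_pow, map_ofNat, map_neg, map_one]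
    linear_combination ((f G * B i j) ^ 2) * h4
  have hint : ∀ i j, ∃ r : R, f r = f G * B i j := by
    intro i j
    obtain ⟨r, hr⟩ := hsq i j
    have h3 : IsIntegral R (f G * B i j) := by
      refine ⟨Polynomial.X ^ 2 - Polynomial.C r, Polynomial.monic_X_pow_sub_C r two_ne_zero, ?_⟩
      simp only [Polynomial.eval₂_sub, Polynomial.eval₂_pow, Polynomial.eval₂_X, Polynomial.eval₂_C]
      rw [← hr]
      exact sub_self _
    exact IsIntegrallyClosed.isIntegral_iff.1 h3
  choose q hq using hint
  refine ⟨of q, ?_, ?_⟩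
  · ext i j
    apply hinj
    have h5 := congrFun (congrFun hAB i) j
    rw [Matrix.mul_apply] at h5
    rw [Matrix.mul_apply, map_sum]
    simp only [map_mul, of_apply, hq, Matrix.smul_apply, smul_eq_mul]
    have h6 : f ((1 : Matrix μ μ R) i j) = (1 : Matrix μ μ K) i j := by
      simp only [Matrix.one_apply]
      split_ifs <;> simp
    rw [h6, ← h5, Finset.mul_sum]
    refine Finset.sum_congr rfl fun k _ => ?_
    rw [hA', Matrix.map_apply]
    ring
  · intro w₁ w₂
    apply hinj
    have e : (A + vecMulVec w₁ w₂).map f = A' + replicateCol (Fin 1) (fun i => f (w₁ i)) *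
        replicateRow (Fin 1) (fun i => f (w₂ i)) := by
      ext a b
      simp [Matrix.mul_apply, vecMulVec_apply, hA']
    rw [RingHom.map_det, RingHom.mapMatrix_apply, e, det_add_mul _ _ hu, hdet, ← hB]
    have e2 : f (w₂ ⬝ᵥ (of q *ᵥ w₁)) = f G * ((fun i => f (w₂ i)) ⬝ᵥ (B *ᵥ fun i => f (w₁ i))) := by
      simp only [dotProduct, mulVec, map_sum, map_mul, of_apply, hq, Finset.mul_sum]
      exact Finset.sum_congr rfl fun i _ => Finset.sum_congr rfl fun j _ => by ring
    have e3 : (1 + replicateRow (Fin 1) (fun i => f (w₂ i)) * B *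
        replicateCol (Fin 1) (fun i => f (w₁ i))).det =
        1 + (fun i => f (w₂ i)) ⬝ᵥ (B *ᵥ fun i => f (w₁ i)) := by
      rw [det_unique, Matrix.add_apply, Matrix.mul_assoc]
      congr 1
    rw [map_mul, map_add, e2, e3]
    ring

end Skew

section PfBound

open Finset

/-- The square of `P` is, as a function, the determinant of a skew-symmetric `m × m` matrix of
affine linear functions (so its Pfaffian is `± P`). -/
def PfRep {σ : Type} [Fintype σ] (P : MvPolynomial σ ℂ) (m : ℕ) : Prop :=
  ∃ (A₀ : Matrix (Fin m) (Fin m) ℂ) (L : σ → Matrix (Fin m) (Fin m) ℂ),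
    A₀ᵀ = -A₀ ∧ (∀ v, (L v)ᵀ = -L v) ∧
    ∀ x : σ → ℂ, MvPolynomial.eval x P ^ 2 = (A₀ + ∑ v, x v • L v).det

variable {ι : Type} [Fintype ι]

theorem pf_crit_bound (m : ℕ) (F : MvPolynomial (Option ι) ℂ)
    (hF : PfRep F m) (Z : Finset (Option ι → ℂ)) (hZ : ∀ z ∈ Z, CritPt F z) :
    (Z.card : ℝ) ≤ (4 * Real.exp 1 * m / (Fintype.card ι + 2 : ℕ)) ^ (Fintype.card ι + 2) := by
  classical
  rcases Z.eq_empty_or_nonempty with rfl | ⟨z₀, hz₀⟩
  · simp only [Finset.card_empty, Nat.cast_zero]
    positivity
  obtain ⟨A₀, L, hA₀, hL, hdet⟩ := hF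
  set A : Matrix (Fin m) (Fin m) (MvPolynomial (Option ι) ℂ) :=
    A₀.map C + ∑ v, (X v : MvPolynomial (Option ι) ℂ) • (L v).map C with hA
  have hev : ∀ x : Option ι → ℂ, A.map (eval x) = A₀ + ∑ v, x v • L v := by
    intro x
    ext i j
    simp [hA, Matrix.sum_apply]
  have hAT : Aᵀ = -A := by
    rw [hA, Matrix.transpose_add, Matrix.transpose_sum, neg_add]
    congr 1
    · rw [← Matrix.transpose_map, hA₀]
      refine Matrix.ext fun i j => ?_
      simp only [Matrix.map_apply, Matrix.neg_apply, map_neg]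
    · rw [← Finset.sum_neg_distrib]
      refine Finset.sum_congr rfl fun v _ => ?_
      rw [Matrix.transpose_smul, ← Matrix.transpose_map, hL]
      refine Matrix.ext fun i j => ?_
      simp only [Matrix.map_apply, Matrix.neg_apply, Matrix.smul_apply, smul_eq_mul, map_neg, mul_neg]
  have hG : A.det = F ^ 2 := by
    refine MvPolynomial.funext fun x => ?_
    rw [RingHom.map_det, RingHom.mapMatrix_apply, hev, map_pow, hdet]
  have hF0 : F ≠ 0 := by
    rintro rfl
    exact (hZ z₀ hz₀).2.2.1 (by simp)
  have h2 : IsUnit (2 : MvPolynomial (Option ι) ℂ) := by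
    have : (2 : MvPolynomial (Option ι) ℂ) = C 2 := (map_ofNat C 2).symm
    rw [this]
    exact (isUnit_iff_ne_zero.2 (two_ne_zero (α := ℂ))).map C
  obtain ⟨Q, hQ1, hQ2⟩ := exists_padj h2 A hAT F hG hF0
  -- `Q` does not vanish at the critical points
  have hQz : ∀ z ∈ Z, Q.map (eval z) ≠ 0 := by
    intro z hz h0
    obtain ⟨c0, -, c2, -⟩ := hZ z hz
    have hm : A.map (pderiv none) * Q + A * Q.map (pderiv none) =
        (pderiv none F) • (1 : Matrix (Fin m) (Fin m) (MvPolynomial (Option ι) ℂ)) := by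
      refine Matrix.ext fun i j => ?_
      have := congrArg (pderiv none) (congrFun (congrFun hQ1 i) j)
      rw [Matrix.mul_apply, map_sum] at this
      rw [Matrix.add_apply, Matrix.mul_apply, Matrix.mul_apply, ← Finset.sum_add_distrib]
      simp only [Matrix.map_apply, Matrix.smul_apply, smul_eq_mul]
      simp only [Matrix.smul_apply, smul_eq_mul, Derivation.leibniz] at this
      have h1 : (pderiv none) ((1 : Matrix (Fin m) (Fin m) (MvPolynomial (Option ι) ℂ)) i j) = 0 := by
        rw [Matrix.one_apply]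
        split_ifs
        · exact pderiv_one
        · exact map_zero _
      rw [h1, mul_zero, zero_add] at this
      rw [mul_comm (pderiv none F), ← this]
      refine Finset.sum_congr rfl fun k _ => ?_
      rw [add_comm, mul_comm (Q k j)]
    have hm2 : A.map (eval z) * (Q.map (pderiv none)).map (eval z) =
        eval z (pderiv none F) • (1 : Matrix (Fin m) (Fin m) ℂ) := by
      have h3 : (A.map (pderiv none) * Q + A * Q.map (pderiv none)).map (eval z) =
        ((pderiv none F) • (1 : Matrix (Fin m) (Fin m) (MvPolynomial (Option ι) ℂ))).map (eval z) := by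
        rw [hm]
      rw [Matrix.map_add _ (fun _ _ => map_add _ _ _), Matrix.map_mul, Matrix.map_mul, h0,
        Matrix.mul_zero, zero_add] at h3
      rw [h3]
      refine Matrix.ext fun i j => ?_
      simp only [Matrix.map_apply, Matrix.smul_apply, smul_eq_mul, map_mul, Matrix.one_apply]
      split_ifs <;> simp
    have h4 := congrArg Matrix.det hm2
    rw [Matrix.det_mul, hev, ← hdet, c0, Matrix.det_smul, Matrix.det_one, mul_one, zero_pow two_ne_zero,
      zero_mul] at h4
    exact pow_ne_zero _ c2 h4.symm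
  -- generic vectors
  have hrow : ∀ z : Z, ∃ i, (Q.map (eval (z : Option ι → ℂ))) i ≠ 0 := by
    intro z
    by_contra hcon
    push Not at hcon
    exact hQz z z.2 (by ext i j; exact congrFun (hcon i) j)
  choose r hr using hrow
  obtain ⟨w₁, hw₁⟩ := Bez.exists_generic (fun z : Z => (Q.map (eval (z : Option ι → ℂ))) (r z)) hr
  obtain ⟨w₂, hw₂⟩ := Bez.exists_generic (fun z : Z => (Q.map (eval (z : Option ι → ℂ))) *ᵥ w₁) (by
    intro z h0
    have := congrFun h0 (r z)
    rw [Pi.zero_apply, mulVec, dotProduct_comm] at this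
    exact hw₁ z this)
  set p : MvPolynomial (Option ι) ℂ := (fun i => C (w₂ i)) ⬝ᵥ (Q *ᵥ fun i => C (w₁ i)) with hp
  have hpe : ∀ x : Option ι → ℂ, eval x p = w₂ ⬝ᵥ (Q.map (eval x) *ᵥ w₁) := by
    intro x
    simp only [hp, dotProduct, mulVec, map_sum, map_mul, eval_C, Matrix.map_apply]
  refine crit_bound m (F * (F + p)) ⟨A₀ + vecMulVec w₁ w₂, L, fun x => ?_⟩ Z fun z hz =>
    CritPt.mul (hZ z hz) ?_
  · rw [← hQ2, RingHom.map_det, RingHom.mapMatrix_apply, add_right_comm A₀, ← hev]
    congr 1
    refine Matrix.ext fun i j => ?_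
    simp only [Matrix.map_apply, Matrix.add_apply, vecMulVec_apply, map_add, map_mul, eval_C]
  · rw [map_add, (hZ z hz).1, zero_add, hpe]
    exact hw₂ ⟨z, hz⟩

end PfBound

end Pool.Agent.Helper67.Pf
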